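import Pool.Agent.Helper537.Msf

/-!
Existence of an orthonormal wavelet for `(A, Γ)` does not imply existence of an MSF wavelet.
The definitions are in `Pool/Agent/Helper537/CalDefs.lean` and `Pool/Agent/Helper537/MsfDefs.lean`.
-/

set_option autoImplicit false

namespace Pool.Agent.Results.MP_d6ba1b_an.WaveletNoMSF

open MeasureTheory Pool.Agent.Helper537.Calderon

/-- For all real `lam > 1` and all integers `q ≥ 2`, the pair `(diag(lam, 1/q), ℤ²)` admits an
orthonormal wavelet but no orthonormal MSF wavelet. The case `lam = q` has determinant one. -/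
theorem result (lam : ℝ) (hlam : 1 < lam) (q : ℕ) (hq : 2 ≤ q) :
    ∃ A : E 2 ≃L[ℝ] E 2, IsDiag A lam (1 / q) ∧
      HasOrthonormalWavelet A (intLattice 2) ∧ ¬ HasMSFWavelet A (intLattice 2) :=
  main_msf hlam hq

end Pool.Agent.Results.MP_d6ba1b_an.WaveletNoMSF
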